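import Mathlib
import Pool.Agent.Lib.MP_8db9bd_an.Defs
import Pool.Agent.Lib.MP_8db9bd_an.EllOne

namespace Pool.Agent.Results.MP_8db9bd_an.EllOneSharp

open Pool.Agent.Lib.MP_8db9bd_an

/-- Two-sided bound, with exponentially small gap, for the polynomial numerical index of order
`k` of the complex space of absolutely summable sequences. -/
theorem result (k : ℕ) (hk : 2 ≤ k) :
    (2 * (k : ℝ) - 1) ^ ((k : ℝ) - 1 / 2) / (2 * (k : ℝ)) ^ k ≤
      polyNumIndex k (lp (fun _ : ℕ => ℂ) 1) ∧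
    polyNumIndex k (lp (fun _ : ℕ => ℂ) 1) ≤
      (2 * (k : ℝ) - 1) ^ ((k : ℝ) - 1 / 2) / (2 * (k : ℝ)) ^ k + 1 / 2 ^ k :=
  ell_one k hk

end Pool.Agent.Results.MP_8db9bd_an.EllOneSharp
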