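import Mathlib
import Pool.Agent.Lib.MP_8db9bd_an.Defs
import Pool.Agent.Lib.MP_8db9bd_an.HilbertMain

namespace Pool.Agent.Results.MP_8db9bd_an.HilbertIndex

open Pool.Agent.Lib.MP_8db9bd_an

/-- The polynomial numerical index of order `k` of a complex Hilbert space `H`:
it is `k^(k/2) / (k+1)^((k+1)/2)` if `dim H ≥ 2` (finite or infinite) and `1` if `dim H = 1`. -/
theorem result (H : Type*) [NormedAddCommGroup H] [InnerProductSpace ℂ H] [CompleteSpace H]
    (k : ℕ) (hk : 1 ≤ k) :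
    (2 ≤ Module.rank ℂ H →
      polyNumIndex k H = (k : ℝ) ^ ((k : ℝ) / 2) / ((k : ℝ) + 1) ^ (((k : ℝ) + 1) / 2)) ∧
    (Module.rank ℂ H = 1 → polyNumIndex k H = 1) :=
  ⟨polyNumIndex_hilbert hk, polyNumIndex_rank_one⟩

end Pool.Agent.Results.MP_8db9bd_an.HilbertIndex
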